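import Mathlib
import Pool.Agent.H19SP.Main

/-!
Chromatic roots of series-parallel graphs of maximum degree `k` have modulus less than
`64 k / log k`.
-/

set_option autoImplicit false

namespace Pool.Agent.Results.MP_8269f7_co.SublinearRoots

open Polynomial

/-- the number of proper colourings of `G` with `q` colours -/
noncomputable def colourings {V : Type*} (G : SimpleGraph V) (q : ℕ) : ℕ :=
  Nat.card {σ : V → Fin q // ∀ x y, G.Adj x y → σ x ≠ σ y}

/-- `P` is the chromatic polynomial of `G` -/
def IsChromaticPolynomial {V : Type*} (G : SimpleGraph V) (P : ℂ[X]) : Prop :=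
  ∀ q : ℕ, 1 ≤ q → P.eval (q : ℂ) = (colourings G q : ℂ)

/-- `G` has a `K₄` minor: four pairwise disjoint sets of vertices, each inducing a (nonempty)
connected subgraph, any two of them joined by an edge -/
def HasK4Minor {V : Type*} (G : SimpleGraph V) : Prop :=
  ∃ B : Fin 4 → Set V, (∀ i, (G.induce (B i)).Connected) ∧
    (∀ i j, i ≠ j → Disjoint (B i) (B j)) ∧
    (∀ i j, i ≠ j → ∃ x ∈ B i, ∃ y ∈ B j, G.Adj x y)

/-- the moduli of the chromatic roots of all finite series-parallel graphs (graphs without `K₄`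
minor) in which every vertex has degree at most `k` -/
def rootModuli (k : ℕ) : Set ℝ :=
  {r | ∃ (n : ℕ) (G : SimpleGraph (Fin n)) (P : ℂ[X]) (z : ℂ), ¬ HasK4Minor G ∧
    (∀ v, (G.neighborSet v).ncard ≤ k) ∧ IsChromaticPolynomial G P ∧ P.eval z = 0 ∧ r = ‖z‖}

theorem exists_chromatic {V : Type*} [Fintype V] (G : SimpleGraph V) :
    ∃ P : ℂ[X], IsChromaticPolynomial G P := by
  classical
  refine ⟨∑ A ∈ G.edgeFinset.powerset, (-1) ^ A.card *
    X ^ Nat.card (SimpleGraph.fromEdgeSet (A : Set (Sym2 V))).ConnectedComponent, fun q _ => ?_⟩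
  -- constant on edges
  let c : (V → Fin q) → Sym2 V → ℂ := fun σ e => if (e.map σ).IsDiag then 1 else 0
  have h1 : ((colourings G q : ℕ) : ℂ) = ∑ σ : V → Fin q, ∏ e ∈ G.edgeFinset, (1 - c σ e) := by
    have h2 : ∀ σ : V → Fin q, ∏ e ∈ G.edgeFinset, (1 - c σ e) =
        if (∀ x y, G.Adj x y → σ x ≠ σ y) then 1 else 0 := by
      intro σ
      by_cases h : ∀ x y, G.Adj x y → σ x ≠ σ y
      · rw [if_pos h]
        apply Finset.prod_eq_one
        intro e he
        induction e using Sym2.ind with
        | _ x y =>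
          rw [SimpleGraph.mem_edgeFinset, SimpleGraph.mem_edgeSet] at he
          simp only [c, Sym2.map_mk, Sym2.mk_isDiag_iff]
          rw [if_neg (by simpa using h x y he), sub_zero]
      · rw [if_neg h]
        push Not at h
        obtain ⟨x, y, hxy, hs⟩ := h
        apply Finset.prod_eq_zero (i := s(x, y))
        · rw [SimpleGraph.mem_edgeFinset, SimpleGraph.mem_edgeSet]; exact hxy
        · simp only [c, Sym2.map_mk, Sym2.mk_isDiag_iff]
          rw [if_pos (by simpa using hs), sub_self]
    rw [Finset.sum_congr rfl fun σ _ => h2 σ, Finset.sum_boole]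
    unfold colourings
    rw [Nat.card_eq_fintype_card, Fintype.card_subtype]
  have h3 : ∀ A : Finset (Sym2 V), A ⊆ G.edgeFinset →
      ∑ σ : V → Fin q, ∏ e ∈ A, c σ e =
        (q : ℂ) ^ Nat.card (SimpleGraph.fromEdgeSet (A : Set (Sym2 V))).ConnectedComponent := by
    intro A hA
    set H := SimpleGraph.fromEdgeSet (A : Set (Sym2 V)) with hH
    have h4 : ∀ σ : V → Fin q, ∏ e ∈ A, c σ e =
        if (∀ x y, H.Adj x y → σ x = σ y) then 1 else 0 := by
      intro σ
      by_cases h : ∀ x y, H.Adj x y → σ x = σ y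
      · rw [if_pos h]
        apply Finset.prod_eq_one
        intro e he
        induction e using Sym2.ind with
        | _ x y =>
          have hxy : G.Adj x y := by
            have := hA he
            rwa [SimpleGraph.mem_edgeFinset, SimpleGraph.mem_edgeSet] at this
          simp only [c, Sym2.map_mk, Sym2.mk_isDiag_iff]
          rw [if_pos]
          apply h
          rw [hH, SimpleGraph.fromEdgeSet_adj]
          exact ⟨he, hxy.ne⟩
      · rw [if_neg h]
        push Not at h
        obtain ⟨x, y, hxy, hs⟩ := h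
        rw [hH, SimpleGraph.fromEdgeSet_adj] at hxy
        apply Finset.prod_eq_zero (i := s(x, y)) hxy.1
        simp only [c, Sym2.map_mk, Sym2.mk_isDiag_iff]
        rw [if_neg hs]
    rw [Finset.sum_congr rfl fun σ _ => h4 σ, Finset.sum_boole]
    have h5 : Nat.card {σ : V → Fin q // ∀ x y, H.Adj x y → σ x = σ y} =
        Nat.card (H.ConnectedComponent → Fin q) := by
      apply Nat.card_congr
      refine ⟨fun σ C => C.lift σ.1 (fun v w p _ => ?_), fun f => ⟨fun v => f (H.connectedComponentMk v),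
        fun x y h => ?_⟩, ?_, ?_⟩
      · induction p with
        | nil => rfl
        | cons h p ih =>
          exact (σ.2 _ _ h).trans (ih (SimpleGraph.Walk.IsPath.of_cons (by assumption)))
      · exact congrArg f (SimpleGraph.ConnectedComponent.sound h.reachable)
      · intro σ
        rfl
      · intro f
        funext C
        induction C using SimpleGraph.ConnectedComponent.ind with
        | _ v => rfl
    rw [← Fintype.card_subtype, ← Nat.card_eq_fintype_card, h5, Nat.card_fun]
    simp
  rw [h1]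
  have h6 : ∀ σ : V → Fin q, ∏ e ∈ G.edgeFinset, (1 - c σ e) =
      ∑ A ∈ G.edgeFinset.powerset, (-1) ^ A.card * ∏ e ∈ A, c σ e := by
    intro σ
    have h7 : ∏ e ∈ G.edgeFinset, (1 - c σ e) = ∏ e ∈ G.edgeFinset, (-c σ e + 1) :=
      Finset.prod_congr rfl fun e _ => by ring
    rw [h7, Finset.prod_add]
    apply Finset.sum_congr rfl
    intro A _
    rw [Finset.prod_const_one, mul_one, Finset.prod_neg]
  rw [Finset.sum_congr rfl fun σ _ => h6 σ, Finset.sum_comm, Polynomial.eval_finsetSum]
  apply Finset.sum_congr rfl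
  intro A hA
  rw [Finset.mem_powerset] at hA
  rw [← Finset.mul_sum, h3 A hA]
  simp

theorem root_lt {V : Type*} [Fintype V] (k : ℕ) (hk : 2 ≤ k) (G : SimpleGraph V)
    (hG : ¬ HasK4Minor G) (hdeg : ∀ v, (G.neighborSet v).ncard ≤ k) (P : ℂ[X])
    (hP : IsChromaticPolynomial G P) (z : ℂ) (hz : P.eval z = 0) :
    ‖z‖ < 64 * k / Real.log k := by
  classical
  refine Pool.Agent.H19SP.chromatic_root_bound k hk G ?_ hdeg P ?_ z hz
  · rintro ⟨f, h1, h2, h3⟩
    exact hG ⟨f, fun i => (h1 i).induce_connected, h2, h3⟩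
  · intro q hq
    rw [hP q hq]
    congr 1
    unfold colourings
    apply Nat.card_congr
    exact
      { toFun := fun σ => SimpleGraph.Coloring.mk σ.1 fun {a b} hab => σ.2 a b hab
        invFun := fun C => ⟨fun v => C v, fun a b hab => C.valid hab⟩
        left_inv := fun σ => rfl
        right_inv := fun C => by
          ext v
          rfl }

theorem result (k : ℕ) (hk : 2 ≤ k) :
    (∀ (V : Type) [Fintype V] (G : SimpleGraph V), ¬ HasK4Minor G →
      (∀ v, (G.neighborSet v).ncard ≤ k) →
      ∃ P : ℂ[X], IsChromaticPolynomial G P ∧ (∀ R : ℂ[X], IsChromaticPolynomial G R → R = P) ∧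
        ∀ z : ℂ, P.eval z = 0 → ‖z‖ < 64 * k / Real.log k) ∧
    BddAbove (rootModuli k) ∧ sSup (rootModuli k) ≤ 64 * k / Real.log k := by
  have hlog : (0 : ℝ) ≤ 64 * k / Real.log k := by
    have : 0 ≤ Real.log k := Real.log_nonneg (by exact_mod_cast (by omega : 1 ≤ k))
    positivity
  have hle : ∀ r ∈ rootModuli k, r ≤ 64 * k / Real.log k := by
    rintro r ⟨n, G, P, z, hG, hdeg, hP, hz, rfl⟩
    exact (root_lt k hk G hG hdeg P hP z hz).le
  refine ⟨fun V _ G hG hdeg => ?_, ⟨_, hle⟩, Real.sSup_le hle hlog⟩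
  obtain ⟨P, hP⟩ := exists_chromatic G
  refine ⟨P, hP, fun R hR => ?_, fun z hz => root_lt k hk G hG hdeg P hP z hz⟩
  apply Polynomial.eq_of_infinite_eval_eq
  apply Set.Infinite.mono (s := Set.range (fun n : ℕ => ((n + 1 : ℕ) : ℂ)))
  · rintro _ ⟨n, rfl⟩
    show eval _ R = eval _ P
    rw [hR (n + 1) (by omega), hP (n + 1) (by omega)]
  · apply Set.infinite_range_of_injective
    intro a b hab
    have h1 : ((a + 1 : ℕ) : ℂ) = ((b + 1 : ℕ) : ℂ) := hab
    have h2 : a + 1 = b + 1 := by exact_mod_cast h1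
    omega

end Pool.Agent.Results.MP_8269f7_co.SublinearRoots
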